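import Pool.Agent.Helper65.OH.Goals

/-! # Bounds; the largest side of a cube -/

namespace Pool.Agent.Helper90.OH

open Pool.Agent.Helper65.LinSpace Pool.Agent.Helper78.Mpc Pool.Agent.Helper28.Ram Finset
open Pool.Agent.Helper65.OH

theorem side_aux (S D N : ℕ) (hD : 0 < D) (hS : S + 1 ≤ N) :
    1 ≤ ∑ j ∈ range N, le01 ((S + 1) * (j + 1) ^ D) N ∧
      (S + 1) * (∑ j ∈ range N, le01 ((S + 1) * (j + 1) ^ D) N) ^ D ≤ N ∧
      N < (S + 1) * ((∑ j ∈ range N, le01 ((S + 1) * (j + 1) ^ D) N) + 1) ^ D := by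
  classical
  have hex : ∃ j, N < (S + 1) * (j + 1) ^ D := by
    refine ⟨N, ?_⟩
    have h1 : N + 1 ≤ (N + 1) ^ D := Nat.le_self_pow (by omega) _
    have h2 : (N + 1) ^ D ≤ (S + 1) * (N + 1) ^ D := Nat.le_mul_of_pos_left _ (Nat.succ_pos S)
    omega
  have hspec := Nat.find_spec hex
  have hmin : ∀ j, j < Nat.find hex → (S + 1) * (j + 1) ^ D ≤ N := fun j hj => by
    have := Nat.find_min hex hj
    omega
  have hbig : ∀ j, Nat.find hex ≤ j → N < (S + 1) * (j + 1) ^ D := fun j hj =>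
    hspec.trans_le (Nat.mul_le_mul_left _ (Nat.pow_le_pow_left (by omega) D))
  have h0 : 0 < Nat.find hex := by
    rcases Nat.eq_zero_or_pos (Nat.find hex) with h | h
    · rw [h] at hspec
      simp at hspec
      omega
    · exact h
  have hle : Nat.find hex ≤ N := by
    refine Nat.find_min' hex ?_
    have h1 : N + 1 ≤ (N + 1) ^ D := Nat.le_self_pow (by omega) _
    have h2 : (N + 1) ^ D ≤ (S + 1) * (N + 1) ^ D := Nat.le_mul_of_pos_left _ (Nat.succ_pos S)
    omega
  have hsum : ∑ j ∈ range N, le01 ((S + 1) * (j + 1) ^ D) N = Nat.find hex := by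
    refine sum_lt_ind hle fun i _ => ?_
    unfold le01
    by_cases hi : i < Nat.find hex
    · rw [if_pos hi, if_pos (hmin i hi)]
    · rw [if_neg hi, if_neg]
      have := hbig i (by omega)
      omega
  rw [hsum]
  refine ⟨h0, ?_, hspec⟩
  have := hmin (Nat.find hex - 1) (by omega)
  rwa [Nat.sub_add_cancel h0] at this

theorem OKS : OKS_stmt := by
  refine ⟨fun m q v => ⟨?_, ?_, ?_, ?_, ?_⟩, fun n S D hD => ?_⟩
  · exact Nat.mod_lt _ (by positivity)
  · exact Nat.mod_lt _ (by positivity)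
  · exact Nat.mod_lt _ (by positivity)
  · exact Nat.mod_lt _ (by positivity)
  · exact Nat.mod_lt _ (by positivity)
  · have h1 : 1 ≤ gR n := Nat.succ_le_succ (Nat.zero_le _)
    have h2 : sS n S + 1 ≤ gR n := by
      unfold sS
      omega
    have h3 : gR n ≤ gR n * gR n := Nat.le_mul_of_pos_left _ h1
    exact side_aux (sS n S) D (gR n * gR n) hD (h2.trans h3)

end Pool.Agent.Helper90.OH
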